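import Pool.Agent.H.MP_4f977f_lc.A

set_option autoImplicit false

/-! Countable covers of a countable power of a countable space. -/

namespace Pool.Agent.H.MP_b6d12e_lc

open Topology TopologicalSpace Set Pool.Agent.H.MP_738f0f_lc Pool.Agent.H.MP_4f977f_lc
open Pool.Agent.Lib.helper21.PR Pool.Agent.Lib.helper21 Pool.Agent.Lib.helper21.ML

attribute [local irreducible] Primrec Computable

theorem part {Y : ℕ → Bool} {R : ℕ → ℕ → Prop} (h : RI Y fun z : ℕ × ℕ => pw (R z.1 z.2)) :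
    ∃ g : ℕ →. ℕ, TuringReducible g (Fn.orc Y) ∧ (∀ n, ∀ v ∈ g n, R n v) ∧
      ∀ n v, R n v → (g n).Dom := by
  classical
  obtain ⟨N, h1, h2, -, h3⟩ := h.un.norm
  let P : ℕ → ℕ → Prop := fun q m => N ((q.unpair.1, q.unpair.2.unpair.1),
    MP_fa2eca_lc.pre (Fn.tb m) q.unpair.2.unpair.2.unpair.1) q.unpair.2.unpair.2.unpair.2 = true
  have h4 : Primrec fun z : ℕ × ℕ => if P z.1 z.2 then 0 else 1 := by unfold P; fun_prop
  have h5 := RecursiveIn.iff_nat.1 (Fn.red Y (ψ := fun n m => Part.some (if P n m then 0 else 1))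
    h4.to_comp.partrec (h := fun q => q.unpair.2.unpair.2.unpair.1) (by fun_prop) fun _ => rfl)
  simp only [P, pre_congr (Fn.tb_cd Y _)] at h5
  refine ⟨_, RecursiveIn.iff_nat.2 (Nat.RecursiveIn.left.comp h5.rfind), fun n v => ?_,
    fun n v k => Part.dom_iff_mem.2 ?_⟩ <;>
  simp only [Part.bind_eq_bind, Part.mem_bind_iff, Nat.mem_rfind, Nat.unpair_pair, Part.map_eq_map,
    Part.map_some, Part.mem_some_iff]
  · rintro ⟨u, ⟨a, -⟩, b⟩
    obtain rfl : v = u.unpair.1 := by simpa using b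
    exact h2 (n, _) _ _ (by simpa using a)
  · have h6 : ∃ u : ℕ, N ((n, u.unpair.1), MP_fa2eca_lc.pre Y u.unpair.2.unpair.1)
        u.unpair.2.unpair.2 = true :=
      let ⟨k, t, h⟩ := h3 (n, v) k; ⟨Nat.pair v (Nat.pair k t), by simpa using h⟩
    exact ⟨_, Nat.find h6, ⟨by simp [Nat.find_spec h6], fun hm => by
      simpa using Nat.find_min h6 hm⟩, Part.mem_some _⟩

theorem dom {Y : ℕ → Bool} {p : ℕ → Prop} (h : RI Y fun a => pw (p a)) :
    ∃ g : ℕ →. ℕ, TuringReducible g (Fn.orc Y) ∧ ∀ n, p n ↔ (g n).Dom :=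
  let ⟨g, a, b, c⟩ := part (R := fun n _ => p n) (h.comp .fst)
  ⟨g, a, fun n => ⟨c n 0, fun k => b n _ (Part.get_mem k)⟩⟩

variable {R : Type}

def Ag (n : ℕ) (u v : ℕ → R) : Prop := ∀ i < n, v i = u i

def Cn (R : Type) := (ℕ → R) × ℕ

instance : Preorder (Cn R) where
  le a b := b.2 ≤ a.2 ∧ Ag b.2 b.1 a.1
  le_refl _ := ⟨le_rfl, fun _ _ => rfl⟩
  le_trans _ _ _ h k := ⟨k.1.trans h.1, fun i hi => (h.2 i (hi.trans_le k.1)).trans (k.2 i hi)⟩

theorem baire [Inhabited R] {ι : Type} [Countable ι] (O : ι → (ℕ → R) → Prop)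
    (d : ∀ i v n, ∃ w m, Ag n v w ∧ ∀ z, Ag m w z → O i z) : ∃ u, ∀ i, O i u := by
  obtain ⟨z, h1, h2⟩ := gen (C := Cn R) (ι := ι ⊕ ℕ) (Sum.elim (fun i c => ∀ v, Ag c.2 c.1 v → O i v)
    fun k c => k < c.2) (default, 0)
  have h3 : ∀ k, ∃ n, k < (z n).2 := fun k => (h2 (.inr k)).imp fun n h => h.resolve_right fun h =>
    h ((z n).1, max (z n).2 (k + 1)) ⟨le_max_left _ _, fun _ _ => rfl⟩ (le_max_right (z n).2 (k + 1))
  choose N hN using h3
  refine ⟨fun i => (z (N i)).1 i, fun i => (h2 (.inl i)).elim fun n h => h.elim (fun h => h _ fun i hi =>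
    ((h1 (le_max_right n (N i))).2 i (hN i)).symm.trans ((h1 (le_max_left n (N i))).2 i hi))
      fun h => ?_⟩
  obtain ⟨w, m, a, b⟩ := d i (z n).1 (z n).2
  exact absurd (fun v c => b v fun j hj => c j (hj.trans_le (le_max_right _ _)))
    (h (w, max (z n).2 m) ⟨le_max_left _ _, a⟩)

def Dn (Z : Set (ℕ → R)) (x : ℕ → R) (n : ℕ) : Prop := ∀ v m, Ag n x v → ∃ w ∈ Z, Ag m v w

theorem two [Countable R] {ι : Type} [Countable ι] (Z : ι → Set (ℕ → R)) (h : ∀ x, ∃ i, x ∈ Z i)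
    (p q : R) : ∃ i n x y, x ∈ Z i ∧ y ∈ Z i ∧ Dn (Z i) x n ∧ Ag n x y ∧ (∃ j, x j = p ∧ y j = q) ∧
      ∀ j, x j = y j ∨ (x j = p ∨ x j = q) ∧ (y j = p ∨ y j = q) := by
  classical
  let G : (ℕ → Option R) → Set ℕ → ℕ → R := fun u a j => (u j).getD (if j ∈ a then p else q)
  obtain ⟨u, hu⟩ := baire (R := Option R) (ι := ι ⊕ ℕ) (Sum.elim
    (fun i u => ∀ a, G u a ∈ Z i → ∃ n, Dn (Z i) (G u a) n) fun k u => ∃ j > k, u j = none) (by
    rintro (i | k) v n
    swap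
    · exact ⟨fun j => if j < n then v j else none, n + k + 2, fun j hj => if_pos hj, fun z hz =>
        ⟨n + k + 1, by omega, (hz _ (by omega)).trans (if_neg (by omega))⟩⟩
    have : ∀ A : Finset (Finset ℕ), ∃ w m, n ≤ m ∧ Ag n v w ∧ (∀ j ≥ n, w j ≠ none) ∧
        ∀ a ∈ A, ∀ z, Ag m (G w a) z → z ∈ Z i → ∃ n, Dn (Z i) z n := fun A => by
      induction A using Finset.induction_on with
      | empty => exact ⟨fun j => if j < n then v j else some p, n, le_rfl, fun j hj => if_pos hj,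
          fun j hj => by simp [hj.not_gt], by simp⟩
      | insert a A _ ih =>
        obtain ⟨w, m, h1, h2, h3, h4⟩ := ih
        by_cases c : Dn (Z i) (G w a) m
        · exact ⟨w, m, h1, h2, h3, Finset.forall_mem_insert _ _ _ |>.2 ⟨fun z b _ =>
            ⟨m, fun s k d => c s k fun j hj => (d j hj).trans (b j hj)⟩, h4⟩⟩
        simp only [Dn, not_forall, not_exists, not_and] at c
        obtain ⟨t, k, c1, c2⟩ := c
        refine ⟨fun j => if j < m then w j else some (t j), m + k, by omega, fun j hj =>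
          (if_pos (by omega)).trans (h2 j hj), fun j hj => ?_, Finset.forall_mem_insert _ _ _ |>.2
            ⟨fun z b d => absurd (fun j hj => (b j (by omega)).trans ?_) (c2 z d),
              fun a ha z b => h4 a ha z fun j hj => (b j (by omega)).trans (by simp [G, hj])⟩⟩
        · dsimp only
          split_ifs
          exacts [h3 j hj, nofun]
        · by_cases d : j < m
          · simpa [G, d] using (c1 j d).symm
          · simp [G, d]
    obtain ⟨w, m, h1, h2, h3, h4⟩ := this (Finset.range n).powerset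
    refine ⟨w, m, h2, fun z b a => h4 ((Finset.range n).filter (· ∈ a))
      (Finset.mem_powerset.2 (Finset.filter_subset _ _)) _ fun j hj => ?_⟩
    simp only [G, b j hj]
    by_cases d : j < n
    · simp [d]
    · obtain ⟨r, e⟩ := Option.ne_none_iff_exists'.1 (h3 j (not_lt.1 d))
      simp [e])
  have i : {j | u j = none}.Infinite := infinite_of_forall_exists_gt fun k =>
    (hu (.inr k)).imp fun _ a => ⟨a.2, a.1⟩
  let μ := i.natEmbedding
  choose I hI using h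
  choose N hN using fun b : Set ℕ => hu (.inl _) _ (hI (G u ((fun k => μ k) '' b)))
  obtain ⟨c, hc⟩ := Countable.exists_injective_nat (ι × ℕ × List R)
  obtain ⟨a, b, e, d⟩ := Function.not_injective_iff.1 (Function.cantor_injective fun b : Set ℕ =>
    c (I (G u ((fun k => μ k) '' b)), N b, (List.range (N b)).map (G u ((fun k => μ k) '' b))))
  wlog s : ∃ k ∈ a, k ∉ b generalizing a b
  · exact this b a e.symm d.symm (by_contra fun t => d (Subset.antisymm
      (fun k hk => not_not.1 fun z => s ⟨k, hk, z⟩) fun k hk => not_not.1 fun z => t ⟨k, hk, z⟩))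
  obtain ⟨k, k1, k2⟩ := s
  obtain ⟨e1, e2, e3⟩ : _ ∧ _ ∧ _ := by simpa only [Prod.mk.injEq] using hc e
  refine ⟨_, N a, _, G u ((fun k => μ k) '' b), hI _, e1 ▸ hI _, hN a, fun j hj => ?_, ⟨μ k, ?_⟩,
    fun j => ?_⟩
  · exact (List.map_inj_left.1 (e2 ▸ e3) j (List.mem_range.2 hj)).symm
  · simp [G, show u (μ k) = none from (μ k).2, k1, k2, Subtype.val_inj]
  · simp only [G]
    cases u j
    · exact .inr ⟨by dsimp; split_ifs <;> simp, by dsimp; split_ifs <;> simp⟩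
    · exact .inl rfl

variable [TopologicalSpace R]

theorem box {W : Set (ℕ → R)} (h : IsOpen W) {x : ℕ → R} (k : x ∈ W) : ∃ (m : ℕ) (U : ℕ → Set R),
    (∀ j, IsOpen (U j) ∧ x j ∈ U j) ∧ ∀ z : ℕ → R, (∀ j < m, z j ∈ U j) → z ∈ W := by
  classical
  obtain ⟨I, u, a, b⟩ := isOpen_pi_iff.1 h x k
  obtain ⟨m, hm⟩ := I.bddAbove
  refine ⟨m + 1, fun j => if j ∈ I then u j else univ, fun j => ?_, fun z hz => b fun i hi => ?_⟩
  · dsimp only
    split_ifs with c
    exacts [a j c, ⟨isOpen_univ, trivial⟩]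
  · simpa only [if_pos (Finset.mem_coe.1 hi)] using hz i (Nat.lt_succ_of_le (hm hi))

def Ct {Y : Type} [TopologicalSpace Y] (Z : Set (ℕ → R)) (g : (ℕ → R) → Y) : Prop :=
  ∀ x ∈ Z, ∀ O ∈ 𝓝 (g x), ∃ W, IsOpen W ∧ x ∈ W ∧ ∀ z ∈ Z, z ∈ W → g z ∈ O

theorem pair [Countable R] {S : (ℕ → R) → Set ℕ} (hS : ∀ e, IsOpen {x | e ∈ S x}) {Y : Type}
    [t : TopologicalSpace Y] {γ : ℕ → Set Y} (h : t = generateFrom (range γ))
    (k : ∀ x, ∃ y, ∃ W V : ℕ × List ℕ → Prop, REPred W ∧ REPred V ∧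
      (∀ n, y ∈ γ n ↔ ∃ l, W (n, l) ∧ ∀ e ∈ l, e ∈ S x) ∧ ∀ n, n ∈ S x ↔ ∃ l, V (n, l) ∧ ∀ e ∈ l, y ∈ γ e)
    (p q : R) : ∃ (Z : Set (ℕ → R)) (g : (ℕ → R) → Y) (n : ℕ) (x y : ℕ → R), Ct Z g ∧ x ∈ Z ∧ y ∈ Z ∧
      Dn Z x n ∧ Ag n x y ∧ (∃ j, x j = p ∧ y j = q) ∧
        (∀ j, x j = y j ∨ (x j = p ∨ x j = q) ∧ (y j = p ∨ y j = q)) ∧ (g x = g y → S x = S y) := by
  have := @cnt_re (ℕ × List ℕ) _
  obtain ⟨⟨W, V⟩, n, x, y, h1, h2, h3⟩ := two (fun
    W : {W : ℕ × List ℕ → Prop // REPred W} × {W : ℕ × List ℕ → Prop // REPred W} =>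
      {x | ∃ y, (∀ n, y ∈ γ n ↔ ∃ l, W.1.1 (n, l) ∧ ∀ e ∈ l, e ∈ S x) ∧
        ∀ n, n ∈ S x ↔ ∃ l, W.2.1 (n, l) ∧ ∀ e ∈ l, y ∈ γ e})
    (fun x => let ⟨y, _, _, a, b, c⟩ := k x; ⟨(⟨_, a⟩, ⟨_, b⟩), y, c⟩) p q
  have : Nonempty Y := ⟨h1.choose⟩
  choose! g hg using fun x (a : ∃ y, (∀ n, y ∈ γ n ↔ ∃ l, W.1 (n, l) ∧ ∀ e ∈ l, e ∈ S x) ∧
    ∀ n, n ∈ S x ↔ ∃ l, V.1 (n, l) ∧ ∀ e ∈ l, y ∈ γ e) => a
  refine ⟨_, g, n, x, y, fun x hx O hO => ?_, h1, h2, h3.1, h3.2.1, h3.2.2.1, h3.2.2.2, fun e =>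
    Set.ext fun i => by rw [(hg _ h1).2, (hg _ h2).2, e]⟩
  obtain ⟨l, b1, b2⟩ := pull (β := fun e => {x | e ∈ S x}) h (fun x hx => (hg x hx).1) hx hO
  exact ⟨⋂ i ∈ {i | i ∈ l}, {x | i ∈ S x}, l.finite_toSet.isOpen_biInter fun i _ => hS i,
    mem_iInter₂.2 b1, fun z hz c => b2 z hz (mem_iInter₂.1 c)⟩

theorem ury {Y : Type} [TopologicalSpace Y] [T25Space Y] {Z : Set (ℕ → R)} {g : (ℕ → R) → Y}
    (hg : Ct Z g) {x y : ℕ → R} {n : ℕ} (hx : x ∈ Z) (hy : y ∈ Z) (hd : Dn Z x n) (a : Ag n x y)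
    (h : ∀ j U V, IsOpen U → IsOpen V → x j ∈ U → y j ∈ V → (closure U ∩ closure V).Nonempty) :
    g x = g y := by
  by_contra c
  obtain ⟨U, hU, V, hV, d⟩ := exists_nhds_disjoint_closure c
  obtain ⟨W1, a1, b1, c1⟩ := hg x hx U hU
  obtain ⟨W2, a2, b2, c2⟩ := hg y hy V hV
  obtain ⟨m1, U1, d1, e1⟩ := box a1 b1
  obtain ⟨m2, U2, d2, e2⟩ := box a2 b2
  choose s hs using fun j => h j _ _ (d1 j).1 (d2 j).1 (d1 j).2 (d2 j).2
  obtain ⟨z, hz, e⟩ := hd (fun j => if j < n then x j else s j) (n + m1 + m2) fun j hj => if_pos hj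
  have key : ∀ {m : ℕ} {T : ℕ → Set R} {U : Set Y}, m ≤ m1 + m2 → (∀ j < n, x j ∈ T j) →
      (∀ j, s j ∈ closure (T j)) → (∀ z ∈ Z, (∀ j < m, z j ∈ T j) → g z ∈ U) → g z ∈ closure U :=
    fun {m T U} k1 k2 k3 k4 => mem_closure_iff_nhds.2 fun O hO => by
      obtain ⟨W, a3, b3, c3⟩ := hg z hz O hO
      obtain ⟨m3, U3, d3, e3⟩ := box a3 b3
      have : ∀ j, ∃ r, (j < n → r = x j) ∧ (j < m → r ∈ T j) ∧ r ∈ U3 j := fun j => by
        have := (d3 j).2
        by_cases p : j < n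
        · exact ⟨x j, fun _ => rfl, fun _ => k2 j p, by simpa [e j (by omega), p] using this⟩
        by_cases q : j < m
        · exact (mem_closure_iff.1 (k3 j) _ (d3 j).1 (by simpa [e j (by omega), p] using this)).imp
            fun r hr => ⟨fun a => absurd a p, fun _ => hr.2, hr.1⟩
        · exact ⟨z j, fun a => absurd a p, fun a => absurd a q, this⟩
      choose v v1 v2 v3 using this
      obtain ⟨w, w2, w1⟩ := hd v (m + m3) v1
      exact ⟨g w, c3 w w2 (e3 w fun j hj => w1 j (by omega) ▸ v3 j),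
        k4 w w2 fun j hj => w1 j (by omega) ▸ v2 j hj⟩
  exact disjoint_left.1 d
    (key (by omega) (fun j _ => (d1 j).2) (fun j => (hs j).1) fun w a b => c1 w a (e1 w b))
    (key (by omega) (fun j hj => a j hj ▸ (d2 j).2) (fun j => (hs j).2) fun w a b => c2 w a (e2 w b))

theorem cyl {W : Set (ℕ → R)} (h : IsOpen W) {x : ℕ → R} (k : x ∈ W) : ∃ m, ∀ y, Ag m x y → y ∈ W :=
  let ⟨m, _, a, b⟩ := box h k; ⟨m, fun y c => b y fun j hj => c j hj ▸ (a j).2⟩

theorem real [Countable R] {Z : Set (ℕ → R)} {f : (ℕ → R) → ℝ}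
    (hf : Ct Z f) {x y : ℕ → R} {n : ℕ} (hx : x ∈ Z) (hy : y ∈ Z) (hd : Dn Z x n) (a : Ag n x y)
    (h : ∀ j C, IsClopen C → x j ∈ C → y j ∈ C) : ¬ f x < f y := fun c => by
  have : Inhabited R := ⟨x 0⟩
  choose! w hw using fun (σ : List R) (a : ∃ w ∈ Z, Ag σ.length (σ.getD · default) w) => a
  obtain ⟨r, r1, r2, r3⟩ := ((countable_range fun σ => f (w σ)).dense_compl ℝ).exists_between c
  let A := fun O : Set ℝ => {x | ∃ W, IsOpen W ∧ x ∈ W ∧ ∀ z ∈ Z, z ∈ W → f z ∈ O}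
  have o : ∀ O, IsOpen (A O) := fun O => isOpen_iff_forall_mem_open.2 fun x ⟨W, a, b, c⟩ =>
    ⟨W, fun y d => ⟨W, a, d, c⟩, a, b⟩
  have dj : ∀ z, Ag n x z → z ∈ A (Iio r) → z ∉ A (Ioi r) := fun z b ⟨W, b1, b2, b3⟩ ⟨V, c1, c2, c3⟩ => by
    obtain ⟨j, hj⟩ := cyl (b1.inter c1) ⟨b2, c2⟩
    obtain ⟨v, v2, v1⟩ := hd z j b
    exact lt_asymm (mem_Iio.1 (b3 _ v2 (hj v v1).1)) (mem_Ioi.1 (c3 _ v2 (hj v v1).2))
  obtain ⟨m1, h1⟩ := cyl (o _) (hf x hx _ (Iio_mem_nhds r2))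
  obtain ⟨m2, h2⟩ := cyl (o _) (hf y hy _ (Ioi_mem_nhds r3))
  set m := n + m1 + m2 with hm
  obtain ⟨t, ht⟩ := baire (fun (τ : List R) t => Ag n x (τ.getD · default) →
    (fun i => if i < m then τ.getD i default else t i) ∈ A (Iio r) ∪ A (Ioi r)) fun τ t k => by
      by_cases b : Ag n x (τ.getD · default)
      swap
      · exact ⟨t, 0, fun _ _ => rfl, fun _ _ c => absurd c b⟩
      obtain ⟨v, v2, v1⟩ := hd (fun i => if i < m then τ.getD i default else t i) (m + k) fun i hi =>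
        (if_pos (by omega)).trans (b i hi)
      obtain ⟨c2, c1⟩ := hw ((List.range (m + k)).map v) ⟨v, v2, fun i hi => by
        simp only [List.length_map, List.length_range] at hi; simp [hi]⟩
      set z := w ((List.range (m + k)).map v)
      replace c1 : ∀ i < m + k, z i = if i < m then τ.getD i default else t i := fun i hi =>
        (c1 i (by simpa using hi)).trans (by simpa [hi] using v1 i hi)
      have : z ∈ A (Iio r) ∪ A (Ioi r) := (lt_or_gt_of_ne fun q => r1 ⟨_, q⟩).imp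
        (fun q => hf _ c2 _ (Iio_mem_nhds q)) fun q => hf _ c2 _ (Ioi_mem_nhds q)
      obtain ⟨j, hj⟩ := cyl ((o _).union (o _)) this
      refine ⟨fun i => if i < m then t i else z i, j, fun i hi => ?_, fun s s1 _ => hj _ fun i hi => ?_⟩ <;>
        beta_reduce <;> split_ifs with q
      exacts [rfl, (c1 i (by omega)).trans (if_neg q), ((c1 i (by omega)).trans (if_pos q)).symm,
        (s1 i hi).trans (if_neg q)]
  replace ht : ∀ z, Ag n x z → (∀ i ≥ m, z i = t i) → z ∈ A (Iio r) ∪ A (Ioi r) := fun z b d => by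
    have := ht ((List.range m).map z) fun i hi => by simp [show i < m by omega, b i hi]
    rwa [show (fun i => if i < m then ((List.range m).map z).getD i default else t i) = z from
      funext fun i => by by_cases q : i < m <;> simp [q, d i, not_lt.1]] at this
  have : ∀ k ≤ m, (fun i => if i < k then y i else if i < m then x i else t i) ∈ A (Iio r) := by
    intro k hk
    induction k with
    | zero => exact h1 _ fun i hi => by simp [show i < m by omega]
    | succ k ih =>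
      set z := fun i => if i < k then y i else if i < m then x i else t i with hz
      rw [show (fun i => if i < k + 1 then y i else if i < m then x i else t i) =
        Function.update z k (y k) from funext fun i => by
          by_cases s : i = k
          · simp [s]
          · simp only [Function.update_of_ne s, hz, show i < k + 1 ↔ i < k by omega]]
      replace ih : x k ∈ Function.update z k ⁻¹' A (Iio r) := by
        rw [mem_preimage, show x k = z k by simp [hz, show k < m by omega], Function.update_eq_self]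
        exact ih (by omega)
      by_cases q : k < n
      · exact a k q ▸ ih
      have u : ∀ d, Ag n x (Function.update z k d) := fun d i hi => by
        simp [hz, show i ≠ k by omega, show i < k by omega, a i hi]
      have cu : Continuous (Function.update z k) := continuous_const.update k continuous_id
      refine h k _ ⟨⟨?_⟩, (o _).preimage cu⟩ ih
      rw [show (Function.update z k ⁻¹' A (Iio r))ᶜ = Function.update z k ⁻¹' A (Ioi r) from
        Set.ext fun d => ⟨(ht _ (u d) fun i hi => by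
          simp [hz, show i ≠ k by omega, show ¬ i < k by omega, hi.not_gt]).resolve_left,
            fun b c => dj _ (u d) c b⟩]
      exact (o _).preimage cu
  exact dj _ (fun i hi => (if_pos (by omega)).trans (a i hi)) (this m le_rfl)
    (h2 _ fun i hi => if_pos (by omega))

@[reducible] def tb (Bs : R → ℕ → Set R) (h : ∀ x k l, k ≤ l → Bs x l ⊆ Bs x k) : TopologicalSpace R where
  IsOpen U := ∀ x ∈ U, ∃ k, Bs x k ⊆ U
  isOpen_univ _ _ := ⟨0, subset_univ _⟩
  isOpen_inter _ _ a b x c := let ⟨k, d⟩ := a x c.1; let ⟨l, e⟩ := b x c.2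
    ⟨k + l, subset_inter ((h x _ _ (by omega)).trans d) ((h x _ _ (by omega)).trans e)⟩
  isOpen_sUnion _ a x := fun ⟨U, b, c⟩ => (a U b x c).imp fun _ d => subset_sUnion_of_subset _ _ d b

end Pool.Agent.H.MP_b6d12e_lc
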