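import Pool.Agent.H.MP_ab6b4f_lc.A

set_option autoImplicit false

/-! A Roy lattice space. -/

namespace Pool.Agent.H.MP_b6d12e_lc

open Topology TopologicalSpace Set Pool.Agent.Lib.helper21.PR Pool.Agent.Lib.helper21
open Pool.Agent.H.MP_ab6b4f_lc (jn chi chi_eq jn_open)

attribute [local irreducible] Primrec Computable

structure D where
  a : ℕ
  T : List ℕ
  c : ℕ

instance : Countable D := Function.Injective.countable (f := fun d : D => (d.a, d.T, d.c))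
  fun ⟨_, _, _⟩ ⟨_, _, _⟩ h => by simpa using h

def D.f (d : D) : ℕ ⊕ Bool :=
  if d.a = 0 then .inr (d.c ≠ 0) else .inl (2 * min d.T.length d.a + if d.c = 0 then 1 else 0)

def Ev (d : D) (i t : ℕ) : Prop :=
  d.a ≠ 0 ∧ (i = 0 ∧ d.a = t ∨ i = 1 ∧ d.c ≠ 0 ∧ Nat.pair d.c d.T.length = t ∨ 2 ≤ i ∧ d.T[i - 2]? = some t)

def Bs (x : D) (k : ℕ) : Set D := {d |
  x.a = 0 ∧ (d.a = 0 ∧ (d.c = 0 ↔ x.c = 0) ∨ k < d.a ∧ k < d.c ∧ (∀ t ∈ d.T, k < t) ∧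
    (x.c = 0 → d.T.length = 0) ∧ (x.c ≠ 0 → k ≤ d.T.length)) ∨
  x.a ≠ 0 ∧ d.a = x.a ∧ (d.T = x.T ∧ (d.c = x.c ∨ x.c = 0 ∧ k < d.c) ∨
    x.c = 0 ∧ k < d.c ∧ ∃ t > k, d.T = x.T ++ [t])}

instance : TopologicalSpace D := tb Bs fun x k l h d => by
  rintro (⟨a, b | ⟨b, c, e, f, g⟩⟩ | ⟨a, b, c | ⟨c, e, t, f, g⟩⟩)
  exacts [.inl ⟨a, .inl b⟩, .inl ⟨a, .inr ⟨by omega, by omega, fun t z => by have := e t z; omega, f,
    fun z => by have := g z; omega⟩⟩, .inr ⟨a, b, .inl ⟨c.1, by omega⟩⟩,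
      .inr ⟨a, b, .inr ⟨c, by omega, t, by omega, g⟩⟩]

theorem op {U : Set D} {k : ℕ} (h : ∀ x ∈ U, ∀ d ∈ Bs x k, d ∈ U) : IsOpen U := fun x a => ⟨k, h x a⟩

theorem ev_iff {x d : D} {i t : ℕ} (h : d ∈ Bs x t) : (Ev x i t → Ev d i t) ∧ (Ev d i t → Ev x i t) := by
  have := Nat.left_le_pair d.c d.T.length
  unfold Ev
  rcases h with ⟨a, b | ⟨b, c, e, -⟩⟩ | ⟨a, b, ⟨c, e⟩ | ⟨c, e, s, f, g⟩⟩
  · omega
  · refine ⟨by omega, ?_⟩
    rintro ⟨-, u | u | u⟩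
    exacts [by omega, by omega, absurd (e t (List.mem_of_getElem? u.2)) (lt_irrefl t)]
  · rcases e with e | e
    · simp only [b, c, e, imp_self, and_self]
    · rw [c] at this
      rw [b, c]
      exact ⟨And.imp_right (Or.imp_right (Or.imp_left fun v => absurd e.1 v.2.1)),
        And.imp_right (Or.imp_right (Or.imp_left (by omega)))⟩
  · refine ⟨fun u => ⟨by omega, u.2.imp (by omega) (Or.imp (fun v => absurd c v.2.1)
      (And.imp_right fun v => ?_))⟩,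
      fun u => ⟨a, u.2.imp (by omega) (Or.imp (fun v => by omega) (And.imp_right fun v => ?_))⟩⟩
    · rw [g, List.getElem?_append_left (List.getElem?_eq_some_iff.1 v).1, v]
    · rw [g, List.getElem?_append] at v
      split_ifs at v
      · exact v
      · have := List.mem_singleton.1 (List.mem_of_getElem? v)
        omega

def YY (x : ℕ → D) : Set ℕ := {n | Ev (x n.unpair.1) n.unpair.2.unpair.1 n.unpair.2.unpair.2}

def HG (f : ℕ → ℕ ⊕ Bool) : Set ℕ := {k | ∃ n m, k = 2 * Nat.pair n m ∧ f n = .inl (2 * m) ∨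
  k = 2 * Nat.pair n m + 1 ∧ ∃ v, f n = .inl v ∧ 2 * m ≤ v}

def HP (f : ℕ → ℕ ⊕ Bool) : Set ℕ := {k | ∃ n m,
  k = 2 * Nat.pair n m ∧ (f n = .inr false ∨ ∃ v, f n = .inl v ∧ v ≤ 2 * m) ∨
  k = 2 * Nat.pair n m + 1 ∧ (f n = .inr true ∨ ∃ v, f n = .inl v ∧ 2 * m ≤ v)}

def S (x : ℕ → D) : Set ℕ := jn (jn (YY x) (YY x)ᶜ) (HP fun n => (x n).f)

theorem lo (d : D) (m : ℕ) : (d.f = .inr false ∨ ∃ v, d.f = .inl v ∧ v ≤ 2 * m) ↔
    d.a = 0 ∧ d.c = 0 ∨ d.a ≠ 0 ∧ (min d.T.length d.a < m ∨ min d.T.length d.a = m ∧ d.c ≠ 0) := by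
  unfold D.f
  split_ifs with a b <;> simp [*]
  omega

theorem hi (d : D) (m : ℕ) : (d.f = .inr true ∨ ∃ v, d.f = .inl v ∧ 2 * m ≤ v) ↔
    d.a = 0 ∧ d.c ≠ 0 ∨ d.a ≠ 0 ∧ m ≤ min d.T.length d.a := by
  unfold D.f
  split_ifs with a b <;> simp [*]
  omega

theorem S_open (e : ℕ) : IsOpen {x | e ∈ S x} := by
  have c := continuous_apply (A := fun _ : ℕ => D)
  refine jn_open (jn_open (fun e => ?_) fun e => ?_) (fun e => ?_) e
  · exact (op (U := {d | Ev d _ _}) fun x a d b => (ev_iff b).1 a).preimage (c _)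
  · exact (op (U := {d | ¬ Ev d _ _}) fun x a d b => mt (ev_iff b).2 a).preimage (c _)
  simp only [HP, mem_ofPred_eq, lo, hi]
  simp only [setOf_exists]
  refine isOpen_iUnion fun n => isOpen_iUnion fun m => (isOpen_const.and ((op (U := {d | d.a = 0 ∧ d.c = 0 ∨
    d.a ≠ 0 ∧ (min d.T.length d.a < m ∨ min d.T.length d.a = m ∧ d.c ≠ 0)}) (k := m) ?_).preimage
      (c n))).union (isOpen_const.and ((op (U := {d | d.a = 0 ∧ d.c ≠ 0 ∨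
        d.a ≠ 0 ∧ m ≤ min d.T.length d.a}) (k := m) ?_).preimage (c n))) <;>
  rintro x a d (⟨b, e | ⟨e, f, -, g⟩⟩ | ⟨b, e, ⟨f, g⟩ | ⟨f, g, t, -, h⟩⟩) <;>
  simp only [mem_ofPred_eq] at a ⊢
  all_goals first | omega | (rw [f]; omega) | (rw [h, List.length_append, List.length_singleton]; omega)

theorem chain {C : Set D} (h : IsClopen C) : (⟨0, [], 0⟩ : D) ∈ C ↔ (⟨0, [], 1⟩ : D) ∈ C := by
  have key : ∀ {C : Set D}, IsClopen C → (⟨0, [], 0⟩ : D) ∈ C → (⟨0, [], 1⟩ : D) ∈ C := fun {C} h a => by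
    obtain ⟨k, hk⟩ := h.2 _ a
    refine h.1.closure_subset (mem_closure_iff.2 fun O b c => ?_)
    obtain ⟨l, hl⟩ := b _ c
    have s : ∀ T, (∀ r, ∃ c > r, (⟨k + l + 1, T, c⟩ : D) ∈ C) → (⟨k + l + 1, T, 0⟩ : D) ∈ C := fun T a =>
      h.1.closure_subset (mem_closure_iff.2 fun O b c => by
        obtain ⟨r, hr⟩ := b _ c
        obtain ⟨c, d, e⟩ := a r
        exact ⟨⟨k + l + 1, T, c⟩, hr (.inr ⟨by simp, rfl, .inl ⟨rfl, .inr ⟨rfl, d⟩⟩⟩), e⟩)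
    have : ∀ m, ∃ T : List ℕ, T.length = m ∧ (∀ t ∈ T, l < t) ∧ (⟨k + l + 1, T, 0⟩ : D) ∈ C := fun m => by
      induction m with
      | zero => exact ⟨[], rfl, by simp, s _ fun r => ⟨r + k + 1, by omega,
          hk (.inl ⟨rfl, .inr ⟨by dsimp only; omega, by dsimp only; omega, by simp⟩⟩)⟩⟩
      | succ m ih =>
        obtain ⟨T, a1, a2, a3⟩ := ih
        obtain ⟨r, hr⟩ := h.2 _ a3
        exact ⟨T ++ [r + l + 1], by simp [a1], List.forall_mem_append.2 ⟨a2, by simp⟩,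
          s _ fun u => ⟨u + r + 1, by omega, hr (.inr ⟨by simp, rfl, .inr
            ⟨rfl, by dsimp only; omega, _, by omega, rfl⟩⟩)⟩⟩
    obtain ⟨T, a1, a2, a3⟩ := this l
    obtain ⟨r, hr⟩ := h.2 _ a3
    exact ⟨⟨k + l + 1, T, r + l + 1⟩, hl (.inl ⟨rfl, .inr ⟨by dsimp only; omega, by dsimp only; omega,
      a2, by simp, fun _ => a1.ge⟩⟩), hr (.inr ⟨by simp, rfl, .inl ⟨rfl, .inr ⟨rfl, by dsimp only; omega⟩⟩⟩)⟩
  exact ⟨key h, fun a => not_not.1 fun b => key h.compl b a⟩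

theorem main {Y : Type} [t : TopologicalSpace Y] {γ : ℕ → Set Y} (h : t = generateFrom (range γ))
    (hs : ∀ y, ∃ d : Y → ℝ, Continuous d ∧ d y = 0 ∧ ∀ z, z ≠ y → 0 < d z) :
    ¬ ∀ x, ∃ y, ∃ W V : ℕ × List ℕ → Prop, REPred W ∧ REPred V ∧
      (∀ n, y ∈ γ n ↔ ∃ l, W (n, l) ∧ ∀ e ∈ l, e ∈ S x) ∧
        ∀ n, n ∈ S x ↔ ∃ l, V (n, l) ∧ ∀ e ∈ l, y ∈ γ e := fun k => by
  obtain ⟨Z, g, n, x, y, h1, h2, h3, h4, h5, ⟨j, a, b⟩, h6, h7⟩ := pair S_open h k ⟨0, [], 0⟩ ⟨0, [], 1⟩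
  obtain ⟨d, d1, d2, d3⟩ := hs (g x)
  refine real (f := d ∘ g) (fun z hz O hO => h1 z hz _ (d1.continuousAt hO)) h2 h3 h4 h5
    (fun i C c e => ?_) (d2.trans_lt (d3 _ fun e => ?_))
  · have := chain c
    rcases h6 i with u | ⟨u | u, v | v⟩ <;> simp_all
  · have : 2 * (2 * Nat.pair j 0) + 1 ∈ S x := .inr ⟨by omega, j, 0, .inl ⟨by omega, .inl (by simp [a, D.f])⟩⟩
    rw [h7 e.symm] at this
    rcases this with u | ⟨-, i, m, ⟨u, v⟩ | u⟩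
    · omega
    · obtain rfl : j = i := (Nat.pair_eq_pair.1 (show Nat.pair j 0 = Nat.pair i m by omega)).1
      simp [b, D.f] at v
    · omega

theorem mem_Y {x : ℕ → D} {n i t : ℕ} : Nat.pair n (Nat.pair i t) ∈ YY x ↔ Ev (x n) i t := by
  simp only [YY, mem_ofPred_eq, Nat.unpair_pair]

theorem ri (x : ℕ → D) : ∃ E : ℕ → ℕ → ℕ → Prop,
    (RI (fun n => cd (n ∈ YY x)) fun z : ℕ × ℕ × ℕ => E z.1 z.2.1 z.2.2) ∧
      ∀ n i t, E n i t ↔ Ev (x n) i t :=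
  ⟨fun n i t => Nat.pair n (Nat.pair i t) ∈ YY x, ((i_ci (ci_comp
    (g := fun z : ℕ × ℕ × ℕ => Nat.pair z.1 (Nat.pair z.2.1 z.2.2))
    (ci_self fun n => cd (n ∈ YY x)) (by fun_prop))).un), fun _ _ _ => mem_Y⟩

theorem half (x : ℕ → D) : ∃ g : ℕ →. ℕ, TuringReducible g (chi (YY x)) ∧
    ∀ n, n ∈ HG (fun n => (x n).f) ↔ (g n).Dom := by
  obtain ⟨E, h, e⟩ := ri x
  rw [chi_eq]
  refine dom (RI.of_eq (p := fun k => pw (∃ n m a, E n 0 a ∧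
    ((k = 2 * Nat.pair n m ∧ ∃ t, E n 1 t ∧ min t.unpair.2 a = m) ∨
      k = 2 * Nat.pair n m + 1 ∧ m ≤ a ∧ (m = 0 ∨ ∃ t, E n (m + 1) t)))) (by fun_prop) fun k => ?_)
  simp only [pw_iff, e]
  refine exists₂_congr fun n m => ?_
  have u : (∃ t, (x n).T[m - 1]? = some t) ↔ m - 1 < (x n).T.length := by
    simp [List.getElem?_eq_some_iff]
  by_cases a : (x n).a = 0
  · simp [Ev, D.f, a]
  have v : (m = 0 ∨ ∃ t, Ev (x n) (m + 1) t) ↔ m ≤ (x n).T.length := by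
    simp only [Ev, ne_eq, a, not_false_eq_true, true_and, show m + 1 - 2 = m - 1 by omega]
    refine ⟨fun z => z.elim (by omega) fun ⟨t, z⟩ => z.elim (by omega) fun z => z.elim (by omega)
      fun z => by have := u.1 ⟨t, z.2⟩; omega, fun z => or_iff_not_imp_left.2 fun w =>
        (u.2 (by omega)).imp fun t q => .inr (.inr ⟨by omega, q⟩)⟩
  simp only [v]
  by_cases c : (x n).c = 0 <;> simp [Ev, D.f, a, c] <;> omega

theorem domi (x : ℕ → D) : ∃ g : ℕ →. ℕ, TuringReducible g (chi (YY x)) ∧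
    ∀ n v, (x n).f = .inl v → ∃ w ∈ g n, v < w := by
  obtain ⟨E, h, e⟩ := ri x
  obtain ⟨g, h1, h2, h3⟩ := part (Y := fun n => cd (n ∈ YY x))
    (R := fun n w => ∃ a, E n 0 a ∧ w = 2 * a + 2) (by fun_prop)
  simp only [e] at h2 h3
  refine ⟨g, chi_eq _ ▸ h1, fun n v e => ?_⟩
  unfold D.f at e
  split_ifs at e with a
  all_goals
    have := Part.get_mem (h3 n _ ⟨_, ⟨a, .inl ⟨rfl, rfl⟩⟩, rfl⟩)
    obtain ⟨b, ⟨-, c⟩, d⟩ := h2 n _ this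
    exact ⟨_, this, by have := Sum.inl_injective e; omega⟩

end Pool.Agent.H.MP_b6d12e_lc
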